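import Mathlib
import Pool.Agent.Lib.MP_d8c2c9_al.Words

/-!
Finiteness of the set of clonoids between finite modules of coprime order.
-/

namespace Pool.Agent.Results.MP_d8c2c9_al.CoprimeFinite

open Pool.Agent.Lib.MP_d8c2c9_al

/-- `g` is an `n`-ary term operation `(x_1,…,x_n) ↦ r_1 x_1 + … + r_n x_n` of the `R`-module `M`. -/
def IsTermOp (R : Type*) {M : Type*} [Ring R] [AddCommGroup M] [Module R M] {n : ℕ}
    (g : (Fin n → M) → M) : Prop :=
  ∃ r : Fin n → R, ∀ x : Fin n → M, g x = ∑ i, r i • x i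

/-- The finitary operations (of arity `n ≥ 1`) from `A` to `B`. -/
abbrev Op (A B : Type*) := Σ n : ℕ+, ((Fin n → A) → B)

/-- `C` is a clonoid from the `R`-module `A` to the `S`-module `B`. -/
structure IsClonoid (R S : Type*) {A B : Type*} [Ring R] [Ring S] [AddCommGroup A]
    [AddCommGroup B] [Module R A] [Module S B] (C : Set (Op A B)) : Prop where
  /-- closed under permuting and identifying variables and adding dummy variables -/
  minor : ∀ (n k : ℕ+) (σ : Fin n → Fin k) (f : (Fin n → A) → B),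
    (⟨n, f⟩ : Op A B) ∈ C → (⟨k, fun x => f (fun i => x (σ i))⟩ : Op A B) ∈ C
  /-- closed under substituting term operations of `A` for the variables -/
  comp : ∀ (n k : ℕ+) (f : (Fin n → A) → B) (g : Fin n → ((Fin k → A) → A)),
    (∀ i, IsTermOp R (g i)) → (⟨n, f⟩ : Op A B) ∈ C →
      (⟨k, fun x => f (fun i => g i x)⟩ : Op A B) ∈ C
  /-- closed under applying term operations of `B` -/
  post : ∀ (m k : ℕ+) (h : (Fin m → B) → B) (f : Fin m → ((Fin k → A) → B)),
    IsTermOp S h → (∀ i, (⟨k, f i⟩ : Op A B) ∈ C) →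
      (⟨k, fun x => h (fun i => f i x)⟩ : Op A B) ∈ C

/-- Membership of an operation of (positive) arity `n`. -/
def Mem {A B : Type*} (C : Set (Op A B)) {n : ℕ} (f : (Fin n → A) → B) : Prop :=
  ∃ h : 0 < n, (⟨⟨n, h⟩, f⟩ : Op A B) ∈ C

section basic

variable {R S A B : Type*} [Ring R] [Ring S] [AddCommGroup A] [AddCommGroup B] [Module R A]
  [Module S B] {C : Set (Op A B)}

theorem isClonoid_post (hC : IsClonoid R S C) {m k : ℕ} (hm : 0 < m) (hk : 0 < k)
    (h : (Fin m → B) → B) (f : Fin m → ((Fin k → A) → B)) (hh : IsTermOp S h)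
    (hf : ∀ i, Mem C (f i)) : Mem C (fun x => h (fun i => f i x)) :=
  ⟨hk, hC.post ⟨m, hm⟩ ⟨k, hk⟩ h f hh (fun i => (hf i).2)⟩

theorem isClonoid_add (hC : IsClonoid R S C) {k : ℕ} {f g : (Fin k → A) → B}
    (hf : Mem C f) (hg : Mem C g) : Mem C (f + g) :=
  isClonoid_post hC (m := 2) (by norm_num) hf.1 (fun y : Fin 2 → B => y 0 + y 1) ![f, g]
    ⟨fun _ => 1, by intro x; simp [Fin.sum_univ_two]⟩ (by
      intro i
      fin_cases i
      · exact hf
      · exact hg)

theorem isClonoid_sub (hC : IsClonoid R S C) {k : ℕ} {f g : (Fin k → A) → B}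
    (hf : Mem C f) (hg : Mem C g) : Mem C (f - g) :=
  isClonoid_post hC (m := 2) (by norm_num) hf.1 (fun y : Fin 2 → B => y 0 - y 1) ![f, g]
    ⟨![1, -1], by intro x; simp [Fin.sum_univ_two, sub_eq_add_neg]⟩ (by
      intro i
      fin_cases i
      · exact hf
      · exact hg)

theorem isClonoid_zero (hC : IsClonoid R S C) {k : ℕ} {f : (Fin k → A) → B}
    (hf : Mem C f) : Mem C (0 : (Fin k → A) → B) := by
  simpa using isClonoid_sub hC hf hf

theorem isClonoid_minor (hC : IsClonoid R S C) {n k : ℕ} {f : (Fin n → A) → B}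
    (hf : Mem C f) (hk : 0 < k) (σ : Fin n → Fin k) : Mem C (fun x : Fin k → A => f (x ∘ σ)) := by
  obtain ⟨h, hf⟩ := hf
  exact ⟨hk, hC.minor ⟨n, h⟩ ⟨k, hk⟩ σ f hf⟩

theorem isClonoid_comp (hC : IsClonoid R S C) {n k : ℕ} {f : (Fin n → A) → B}
    (hf : Mem C f) (hk : 0 < k) (M : Fin n → Fin k → R) :
    Mem C (fun x : Fin k → A => f (fun i => ∑ j, M i j • x j)) := by
  obtain ⟨h, hf⟩ := hf
  exact ⟨hk, hC.comp ⟨n, h⟩ ⟨k, hk⟩ f (fun i x => ∑ j, M i j • x j)
    (fun i => ⟨M i, fun _ => rfl⟩) hf⟩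

omit [AddCommGroup A] [AddCommGroup B] in
theorem mem_of_coe {x : Op A B} : x ∈ C ↔ Mem C x.2 :=
  ⟨fun h => ⟨x.1.2, h⟩, fun ⟨_, h⟩ => h⟩

end basic

section dcc

variable {R S A B : Type*} [Ring R] [Ring S] [AddCommGroup A] [AddCommGroup B] [Module R A]
  [Module S B]

/-- The values at `w` of the members of `C` vanishing before `w`. -/
def Val [LinearOrder A] (C : Set (Op A B)) (w : Word A) : Set B :=
  {b | ∃ f : (Fin w.1 → A) → B, Mem C f ∧ (∀ v, toLex v < toLex w.2 → f v = 0) ∧ f w.2 = b}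

theorem val_os [LinearOrder A] {C : Set (Op A B)} (hC : IsClonoid R S C) {w w' : Word A}
    (h : OS w w') : Val C w' ⊆ Val C w := by
  rintro b ⟨f, hf, hf0, hfb⟩
  obtain ⟨m, p, h1, h2, h3⟩ := h
  have hw' : w'.2 = w.2 ∘ p := funext h3
  have hpos : 0 < w.1 := lt_of_le_of_lt (Nat.zero_le _) (p ⟨0, hf.1⟩).2
  refine ⟨fun x => f (x ∘ p), isClonoid_minor hC hf hpos p, fun v hv => ?_, ?_⟩
  · apply hf0
    rw [hw']
    exact lex_comp_lt m p h1 h2 hv
  · rw [← hfb, hw']

theorem mem_of_val [Finite A] [LinearOrder A] {C D : Set (Op A B)} (hC : IsClonoid R S C)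
    (hD : IsClonoid R S D) (hCD : C ⊆ D) (h : ∀ w, Val D w ⊆ Val C w) : D ⊆ C := by
  intro x hx
  rw [mem_of_coe] at hx ⊢
  obtain ⟨n, f⟩ := x
  have hCD' : ∀ {g : (Fin n → A) → B}, Mem C g → Mem D g := fun ⟨h1, h2⟩ => ⟨h1, hCD h2⟩
  -- the zero function is in C
  have h0D : Mem D (0 : (Fin n → A) → B) := isClonoid_zero hD hx
  have h0C : Mem C (0 : (Fin n → A) → B) := by
    obtain ⟨g, hg, -⟩ := h ⟨n, fun _ => 0⟩ ⟨0, h0D, fun _ _ => rfl, rfl⟩
    exact isClonoid_zero hC hg
  have : Finite (Lex (Fin n → A)) := inferInstanceAs (Finite (Fin n → A))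
  have := elim_lemma (X := Lex (Fin n → A)) (N := B)
    {u | Mem C (fun x => u (toLex x))} {u | Mem D (fun x => u (toLex x))} h0C
    (fun u hu v hv => isClonoid_add hC hu hv)
    (fun u hu v hv => isClonoid_sub hD hu (hCD' hv)) (by
      intro w u hu hu0
      obtain ⟨g, hg, hg0, hgb⟩ := h ⟨n, ofLex w⟩
        ⟨fun x => u (toLex x), hu, fun v hv => hu0 _ hv, rfl⟩
      exact ⟨fun x => g (ofLex x), hg, fun v hv => hg0 _ hv, hgb⟩)
  exact this (show (fun x => f (ofLex x)) ∈ {u | Mem D (fun x => u (toLex x))} from hx)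

omit [AddCommGroup A] in
theorem val_mono [LinearOrder A] {C D : Set (Op A B)} (h : C ⊆ D) (w : Word A) :
    Val C w ⊆ Val D w := by
  rintro b ⟨f, hf, h1, h2⟩
  exact ⟨f, ⟨hf.1, h hf.2⟩, h1, h2⟩

variable (R S A B) in
theorem dcc [Finite A] [Finite B] : WellFoundedLT {C : Set (Op A B) // IsClonoid R S C} := by
  classical
  let _ : LinearOrder A := LinearOrder.lift' (Finite.equivFin A) (Equiv.injective _)
  refine ⟨wellFounded_iff_isEmpty_descending_chain.2 ⟨fun ⟨f, hf⟩ => ?_⟩⟩
  have hanti : Antitone f := antitone_nat_of_succ_le fun n => (hf n).le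
  obtain ⟨i, hi⟩ := chain_lemma (α := A) (T := (Set B)ᵒᵈ)
    (fun i w => OrderDual.toDual (Val (f i).1 w))
    (fun w i j hij => val_mono (hanti hij) w)
    (fun i w w' h => val_os (f i).2 h)
  have h1 : ∀ w, Val (f i).1 w = Val (f (i + 1)).1 w := hi
  have h2 := mem_of_val (f (i + 1)).2 (f i).2 (hf i).le (fun w => (h1 w).le)
  exact not_le_of_gt (hf i) h2

end dcc

section acc

variable {R S A B : Type*} [Ring R] [Ring S] [AddCommGroup A] [AddCommGroup B] [Module R A]
  [Module S B] [Fintype R] [Fintype A] [DecidableEq A]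

/-- The function `x ↦ ∑_M u(M)(M x)` attached to a family `u` of functions indexed by matrices. -/
def Tot {k : ℕ} (u : (Fin k → {a : A // a ≠ 0} → R) → (({a : A // a ≠ 0} → A) → B)) :
    (Fin k → A) → B :=
  fun x => ∑ M, u M (fun i => ∑ j, M j i • x j)

/-- The kernel `h(y) = ∏_i ([y_i = 0] - [y_i = i])`. -/
def ker (y : {a : A // a ≠ 0} → A) : ℤ :=
  ∏ i, ((if y i = 0 then 1 else 0) - (if y i = i.1 then 1 else 0))

theorem sum_ker {k : ℕ} (z : Fin k → A) :
    ∑ M : Fin k → {a : A // a ≠ 0} → R, ker (fun i => ∑ j, M j i • z j) =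
      if z = 0 then ((Fintype.card (Fin k → R) : ℤ) ^ Fintype.card {a : A // a ≠ 0}) else 0 := by
  classical
  have e1 : ∑ M : Fin k → {a : A // a ≠ 0} → R, ker (fun i => ∑ j, M j i • z j) =
      ∑ N : {a : A // a ≠ 0} → Fin k → R, ∏ i, ((if ∑ j, N i j • z j = 0 then (1 : ℤ) else 0) -
        (if ∑ j, N i j • z j = i.1 then 1 else 0)) := by
    refine Fintype.sum_equiv (Equiv.piComm (fun _ _ => R)) _ _ (fun M => ?_)
    simp only [ker, Equiv.piComm_apply]
  rw [e1]
  have e2 := Finset.prod_univ_sum (fun _ : {a : A // a ≠ 0} => (Finset.univ : Finset (Fin k → R)))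
    (fun i r => ((if ∑ j, r j • z j = 0 then (1 : ℤ) else 0) -
        (if ∑ j, r j • z j = i.1 then 1 else 0)))
  rw [Fintype.piFinset_univ] at e2
  rw [← e2]
  split_ifs with hz
  · subst hz
    rw [Finset.prod_congr rfl (g := fun _ => (Fintype.card (Fin k → R) : ℤ))]
    · simp
    · intro i _
      have : (0 : A) ≠ i.1 := i.2.symm
      simp [this]
  · obtain ⟨j0, hj0⟩ : ∃ j, z j ≠ 0 := by
      by_contra hcon
      push Not at hcon
      exact hz (funext hcon)
    refine Finset.prod_eq_zero (Finset.mem_univ (⟨z j0, hj0⟩ : {a : A // a ≠ 0})) ?_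
    rw [Finset.sum_sub_distrib, sub_eq_zero]
    refine Fintype.sum_equiv (Equiv.addRight (Pi.single j0 (1 : R) : Fin k → R)) _ _ (fun r => ?_)
    have : ∑ j, (r + (Pi.single j0 (1 : R) : Fin k → R)) j • z j = ∑ j, r j • z j + z j0 := by
      simp [add_smul, Finset.sum_add_distrib, Pi.single_apply, ite_smul]
    simp only [Equiv.coe_addRight, this, add_eq_right]

theorem tot_surjective (hcop : Nat.Coprime (Nat.card R) (Nat.card B)) {k : ℕ}
    (f : (Fin k → A) → B) :
    ∃ u : (Fin k → {a : A // a ≠ 0} → R) → (({a : A // a ≠ 0} → A) → B), Tot u = f := by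
  classical
  set q : ℕ := Fintype.card (Fin k → R) ^ Fintype.card {a : A // a ≠ 0} with hq
  have hq' : Nat.Coprime q (Nat.card B) := by
    rw [hq, Fintype.card_fun, Fintype.card_fin, ← Nat.card_eq_fintype_card (α := R)]
    exact Nat.Coprime.pow_left _ (Nat.Coprime.pow_left _ hcop)
  obtain ⟨t, s, hts⟩ := (Nat.isCoprime_iff_coprime.2 hq' : IsCoprime (q : ℤ) (Nat.card B : ℤ))
  have hinv : ∀ b : B, (t * (q : ℤ)) • b = b := by
    intro b
    have h1 : (s * (Nat.card B : ℤ)) • b = 0 := by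
      rw [mul_smul, natCast_zsmul, card_nsmul_eq_zero', smul_zero]
    calc (t * (q : ℤ)) • b = (t * (q : ℤ)) • b + (s * (Nat.card B : ℤ)) • b := by rw [h1, add_zero]
      _ = b := by rw [← add_smul, hts, one_smul]
  refine ⟨fun M y => ∑ a : Fin k → A, (t * ker (fun i => y i - ∑ j, M j i • a j)) • f a, ?_⟩
  funext x
  simp only [Tot]
  rw [Finset.sum_comm]
  have h2 : ∀ a : Fin k → A, ∑ M : Fin k → {a : A // a ≠ 0} → R,
      (t * ker (fun i => ∑ j, M j i • x j - ∑ j, M j i • a j)) • f a =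
      if a = x then f x else 0 := by
    intro a
    rw [← Finset.sum_smul, ← Finset.mul_sum]
    have h3 : ∀ M : Fin k → {a : A // a ≠ 0} → R,
        ker (fun i => ∑ j, M j i • x j - ∑ j, M j i • a j) =
        ker (fun i => ∑ j, M j i • (x - a) j) := by
      intro M
      congr 1
      funext i
      simp [smul_sub]
    rw [Finset.sum_congr rfl (fun M _ => h3 M), sum_ker (x - a)]
    by_cases hax : a = x
    · subst hax
      have := hinv (f a)
      simp only [sub_self, if_true]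
      rw [hq] at this
      push_cast at this
      exact this
    · have : x - a ≠ 0 := fun h => hax (sub_eq_zero.1 h).symm
      simp [hax, this]
  rw [Finset.sum_congr rfl (fun a _ => h2 a)]
  simp

/-- The values at `w` of the families `u` with `Tot u ∈ C` vanishing before `w`. -/
def Val' [LinearOrder ({a : A // a ≠ 0} → R)] (C : Set (Op A B))
    (w : Word ({a : A // a ≠ 0} → R)) : Set (({a : A // a ≠ 0} → A) → B) :=
  {b | ∃ u : (Fin w.1 → {a : A // a ≠ 0} → R) → (({a : A // a ≠ 0} → A) → B),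
    Mem C (Tot u) ∧ (∀ v, toLex v < toLex w.2 → u v = 0) ∧ u w.2 = b}

theorem val'_os [LinearOrder ({a : A // a ≠ 0} → R)] {C : Set (Op A B)} (hC : IsClonoid R S C)
    {w w' : Word ({a : A // a ≠ 0} → R)} (h : OS w w') : Val' C w ⊆ Val' C w' := by
  classical
  rintro b ⟨u, hu, hu0, hub⟩
  obtain ⟨m, p, h1, h2, h3⟩ := h
  have hw' : w'.2 = w.2 ∘ p := funext h3
  have hpos : 0 < w'.1 := lt_of_le_of_lt (Nat.zero_le _) (m ⟨0, hu.1⟩).2
  have hm : ∀ v : Fin w.1 → {a : A // a ≠ 0} → R, (v ∘ p) ∘ m = v := by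
    intro v; funext i; simp [h1]
  refine ⟨fun v' => if v' = (v' ∘ m) ∘ p then u (v' ∘ m) else 0, ?_, fun v' hv' => ?_, ?_⟩
  · have := isClonoid_comp hC hu hpos (fun i j => if p j = i then 1 else 0)
    convert this using 1
    funext x
    simp only [Tot]
    symm
    refine Fintype.sum_of_injective (fun v => v ∘ p) (fun v v' hvv' => ?_) _ _ ?_ ?_
    · have := congrArg (fun t => t ∘ m) hvv'
      simpa [hm] using this
    · intro v' hv'
      have : ¬ v' = (v' ∘ m) ∘ p := fun h => hv' ⟨v' ∘ m, h.symm⟩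
      simp [this]
    · intro v
      simp only [hm, if_true]
      congr 1
      funext i
      simp only [Finset.smul_sum, Function.comp]
      rw [Finset.sum_comm]
      refine Finset.sum_congr rfl (fun j _ => ?_)
      simp [ite_smul, smul_ite]
  · by_cases h : v' = (v' ∘ m) ∘ p
    · simp only
      rw [if_pos h]
      apply hu0
      rw [← lex_comp_lt_iff m p h1 h2, ← h, ← hw']
      exact hv'
    · simp only
      rw [if_neg h]
  · simp only
    rw [hw', hm, if_pos rfl, hub]

theorem tot_add {k : ℕ} (u v : (Fin k → {a : A // a ≠ 0} → R) → (({a : A // a ≠ 0} → A) → B)) :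
    Tot (u + v) = Tot u + Tot v := by
  funext x
  simp [Tot, Finset.sum_add_distrib]

theorem tot_sub {k : ℕ} (u v : (Fin k → {a : A // a ≠ 0} → R) → (({a : A // a ≠ 0} → A) → B)) :
    Tot (u - v) = Tot u - Tot v := by
  funext x
  simp [Tot, Finset.sum_sub_distrib]

theorem mem_of_val' [LinearOrder ({a : A // a ≠ 0} → R)]
    (hcop : Nat.Coprime (Nat.card R) (Nat.card B)) {C D : Set (Op A B)} (hC : IsClonoid R S C)
    (hD : IsClonoid R S D) (hCD : C ⊆ D) (h : ∀ w, Val' (R := R) D w ⊆ Val' C w) : D ⊆ C := by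
  intro x hx
  rw [mem_of_coe] at hx ⊢
  obtain ⟨n, f⟩ := x
  have hCD' : ∀ {g : (Fin n → A) → B}, Mem C g → Mem D g := fun ⟨h1, h2⟩ => ⟨h1, hCD h2⟩
  obtain ⟨u, rfl⟩ := tot_surjective (R := R) hcop f
  have ht0 : Tot (0 : (Fin n → {a : A // a ≠ 0} → R) → (({a : A // a ≠ 0} → A) → B)) =
      (0 : (Fin n → A) → B) := by
    funext x
    simp [Tot]
  have h0D : Mem D (0 : (Fin n → A) → B) := isClonoid_zero hD hx
  have h0C : Mem C (0 : (Fin n → A) → B) := by
    obtain ⟨g, hg, -⟩ := h ⟨n, fun _ => 0⟩ ⟨0, by rw [ht0]; exact h0D, fun _ _ => rfl, rfl⟩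
    exact isClonoid_zero hC hg
  have hfin : Finite (Lex (Fin n → {a : A // a ≠ 0} → R)) :=
    inferInstanceAs (Finite (Fin n → {a : A // a ≠ 0} → R))
  have := elim_lemma (X := Lex (Fin n → {a : A // a ≠ 0} → R))
    (N := ({a : A // a ≠ 0} → A) → B)
    {u | Mem C (Tot (fun x => u (toLex x)))} {u | Mem D (Tot (fun x => u (toLex x)))}
    (by
      show Mem C (Tot (0 : (Fin n → {a : A // a ≠ 0} → R) → (({a : A // a ≠ 0} → A) → B)))
      rw [ht0]
      exact h0C)
    (fun u hu v hv => by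
      have := isClonoid_add hC hu hv
      rw [← tot_add] at this
      exact this)
    (fun u hu v hv => by
      have := isClonoid_sub hD hu (hCD' hv)
      rw [← tot_sub] at this
      exact this) (by
      intro w u hu hu0
      obtain ⟨g, hg, hg0, hgb⟩ := h ⟨n, ofLex w⟩
        ⟨fun x => u (toLex x), hu, fun v hv => hu0 _ hv, rfl⟩
      exact ⟨fun x => g (ofLex x), hg, fun v hv => hg0 _ hv, hgb⟩)
  exact this (show (fun x => u (ofLex x)) ∈ {u | Mem D (Tot (fun x => u (toLex x)))} from hx)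

theorem val'_mono [LinearOrder ({a : A // a ≠ 0} → R)] {C D : Set (Op A B)} (h : C ⊆ D)
    (w : Word ({a : A // a ≠ 0} → R)) : Val' C w ⊆ Val' D w := by
  rintro b ⟨f, hf, h1, h2⟩
  exact ⟨f, ⟨hf.1, h hf.2⟩, h1, h2⟩

variable (R S A B) in
theorem acc [Finite B] (hcop : Nat.Coprime (Nat.card R) (Nat.card B)) :
    WellFoundedGT {C : Set (Op A B) // IsClonoid R S C} := by
  let _ : LinearOrder ({a : A // a ≠ 0} → R) :=
    LinearOrder.lift' (Finite.equivFin ({a : A // a ≠ 0} → R)) (Equiv.injective _)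
  refine ⟨wellFounded_iff_isEmpty_descending_chain.2 ⟨fun ⟨f, hf⟩ => ?_⟩⟩
  have hmono : Monotone f := monotone_nat_of_le_succ fun n => (hf n).le
  obtain ⟨i, hi⟩ := chain_lemma (α := {a : A // a ≠ 0} → R)
    (T := (Set (({a : A // a ≠ 0} → A) → B)))
    (fun i w => (Val' (f i).1 w))
    (fun w i j hij => val'_mono (hmono hij) w)
    (fun i w w' h => val'_os (f i).2 h)
  have h2 := mem_of_val' hcop (f i).2 (f (i + 1)).2 (hf i).le (fun w => (hi w).ge)
  exact not_le_of_gt (hf i) h2

end acc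

section finiteness

variable {R S A B : Type*} [Ring R] [Ring S] [AddCommGroup A] [AddCommGroup B] [Module R A]
  [Module S B]

theorem isTermOp_comp {M : Type*} [AddCommGroup M] [Module R M] {n k : ℕ}
    {g : (Fin n → M) → M} (hg : IsTermOp R g) {p : Fin n → ((Fin k → M) → M)}
    (hp : ∀ i, IsTermOp R (p i)) : IsTermOp R (fun x => g (fun i => p i x)) := by
  obtain ⟨r, hr⟩ := hg
  choose s hs using hp
  refine ⟨fun j => ∑ i, r i * s i j, fun x => ?_⟩
  simp only [hr, hs, Finset.smul_sum, Finset.sum_smul, mul_smul]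
  rw [Finset.sum_comm]

theorem isTermOp_proj {M : Type*} [AddCommGroup M] [Module R M] {k : ℕ} (i : Fin k) :
    IsTermOp R (fun x : Fin k → M => x i) := by
  classical
  refine ⟨fun j => if j = i then 1 else 0, fun x => ?_⟩
  simp [ite_smul]

/-- The largest clonoid with the same members of arity at most `n`. -/
def Up (R : Type*) [Ring R] [Module R A] (C : Set (Op A B)) (n : ℕ) : Set (Op A B) :=
  {x | ∀ k : ℕ+, (k : ℕ) ≤ n → ∀ g : Fin x.1 → ((Fin k → A) → A), (∀ i, IsTermOp R (g i)) →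
    (⟨k, fun y => x.2 (fun i => g i y)⟩ : Op A B) ∈ C}

theorem isClonoid_up {C : Set (Op A B)} (hC : IsClonoid R S C) (n : ℕ) :
    IsClonoid R S (Up R C n) where
  minor := by
    intro m k σ f hf l hl g hg
    exact hf l hl (fun i => g (σ i)) (fun i => hg (σ i))
  comp := by
    intro m k f g hg hf l hl p hp
    exact hf l hl (fun i x => g i (fun j => p j x)) (fun i => isTermOp_comp (hg i) hp)
  post := by
    intro m k h f hh hf l hl g hg
    exact hC.post m l h (fun i x => f i (fun j => g j x)) hh (fun i => hf i l hl g hg)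

/-- The smallest clonoid with the same members of arity at most `n`. -/
def Lo (R S : Type*) [Ring R] [Module R A] [Ring S] [Module S B] (C : Set (Op A B)) (n : ℕ) :
    Set (Op A B) :=
  {x | ∀ D : Set (Op A B), IsClonoid R S D → (∀ y ∈ C, (y.1 : ℕ) ≤ n → y ∈ D) → x ∈ D}

theorem isClonoid_lo (C : Set (Op A B)) (n : ℕ) : IsClonoid R S (Lo R S C n) where
  minor := fun m k σ f hf D hD hCD => hD.minor m k σ f (hf D hD hCD)
  comp := fun m k f g hg hf D hD hCD => hD.comp m k f g hg (hf D hD hCD)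
  post := fun m k h f hh hf D hD hCD => hD.post m k h f hh (fun i => hf i D hD hCD)

/-- Every clonoid is determined by finitely many of its levels among all clonoids. -/
theorem isolated (h1 : WellFoundedLT {C : Set (Op A B) // IsClonoid R S C})
    (h2 : WellFoundedGT {C : Set (Op A B) // IsClonoid R S C}) {C : Set (Op A B)}
    (hC : IsClonoid R S C) : ∃ n : ℕ, ∀ D, IsClonoid R S D →
      (∀ x : Op A B, (x.1 : ℕ) ≤ n → (x ∈ D ↔ x ∈ C)) → D = C := by
  -- upper bound
  obtain ⟨n1, hn1⟩ : ∃ n, Up R C n ⊆ C := by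
    obtain ⟨X, ⟨n, rfl⟩, hX⟩ := h1.wf.has_min
      (Set.range (fun n => (⟨Up R C n, isClonoid_up hC n⟩ :
        {C : Set (Op A B) // IsClonoid R S C}))) ⟨_, 0, rfl⟩
    refine ⟨n, fun x hx => ?_⟩
    have hle : Up R C (max n x.1) ⊆ Up R C n := fun y hy k hk => hy k (hk.trans (le_max_left _ _))
    have h3 : Up R C n ⊆ Up R C (max n x.1) := by
      by_contra hcon
      exact hX _ ⟨max n x.1, rfl⟩ (lt_of_le_not_ge hle hcon)
    exact h3 hx x.1 (le_max_right _ _) (fun i y => y i) (fun i => isTermOp_proj i)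
  obtain ⟨n2, hn2⟩ : ∃ n, C ⊆ Lo R S C n := by
    obtain ⟨X, ⟨n, rfl⟩, hX⟩ := h2.wf.has_min
      (Set.range (fun n => (⟨Lo R S C n, isClonoid_lo C n⟩ :
        {C : Set (Op A B) // IsClonoid R S C}))) ⟨_, 0, rfl⟩
    refine ⟨n, fun x hx => ?_⟩
    have hle : Lo R S C n ⊆ Lo R S C (max n x.1) :=
      fun y hy D hD hCD => hy D hD (fun z hz hzn => hCD z hz (hzn.trans (le_max_left _ _)))
    have h3 : Lo R S C (max n x.1) ⊆ Lo R S C n := by
      by_contra hcon
      exact hX _ ⟨max n x.1, rfl⟩ (lt_of_le_not_ge hle hcon)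
    exact h3 (fun D hD hCD => hCD x hx (le_max_right _ _))
  refine ⟨max n1 n2, fun D hD hDC => Set.Subset.antisymm (fun x hx => ?_) (fun x hx => ?_)⟩
  · apply hn1
    intro k hk g hg
    exact (hDC _ (hk.trans (le_max_left _ _))).1 (hD.comp x.1 k x.2 g hg hx)
  · exact hn2 hx D hD (fun y hy hyn => (hDC y (hyn.trans (le_max_right _ _))).2 hy)

theorem finite_of_chain [Finite A] [Finite B]
    (h1 : WellFoundedLT {C : Set (Op A B) // IsClonoid R S C})
    (h2 : WellFoundedGT {C : Set (Op A B) // IsClonoid R S C}) :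
    Finite {C : Set (Op A B) // IsClonoid R S C} := by
  by_contra hinf
  rw [not_finite_iff_infinite] at hinf
  let U : Ultrafilter {C : Set (Op A B) // IsClonoid R S C} := Filter.hyperfilter _
  let L : Set (Op A B) :=
    {x | ∀ᶠ C in (U : Filter {C : Set (Op A B) // IsClonoid R S C}), x ∈ C.1}
  have hL : IsClonoid R S L :=
    { minor := fun m k σ f hf => Filter.Eventually.mono hf
        (fun C (hC : _ ∈ C.1) => C.2.minor m k σ f hC)
      comp := fun m k f g hg hf => Filter.Eventually.mono hf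
        (fun C (hC : _ ∈ C.1) => C.2.comp m k f g hg hC)
      post := fun m k h f hh hf => by
        have : ∀ᶠ C in (U : Filter {C : Set (Op A B) // IsClonoid R S C}),
            ∀ i, (⟨k, f i⟩ : Op A B) ∈ C.1 := Filter.eventually_all.2 hf
        exact this.mono (fun C hC => C.2.post m k h f hh hC) }
  obtain ⟨n, hn⟩ := isolated h1 h2 hL
  have hfin : {x : Op A B | (x.1 : ℕ) ≤ n}.Finite := by
    have h3 : {x : Op A B | (x.1 : ℕ) ≤ n} ⊆
        Set.range (fun y : (Σ k : Fin n, ((Fin (k + 1) → A) → B)) =>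
          (⟨⟨y.1 + 1, Nat.succ_pos _⟩, y.2⟩ : Op A B)) := by
      rintro ⟨⟨k, hk⟩, f⟩ hx
      obtain ⟨l, rfl⟩ : ∃ l, k = l + 1 := ⟨k - 1, by omega⟩
      exact ⟨⟨⟨l, hx⟩, f⟩, rfl⟩
    exact (Set.finite_range _).subset h3
  have h4 : ∀ᶠ C in (U : Filter {C : Set (Op A B) // IsClonoid R S C}),
      ∀ x ∈ {x : Op A B | (x.1 : ℕ) ≤ n}, (x ∈ C.1 ↔ x ∈ L) := by
    rw [Filter.eventually_all_finite hfin]
    intro x _
    by_cases hx : x ∈ L
    · exact Filter.Eventually.mono hx (fun C (hC : x ∈ C.1) => by simp [hC, hx])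
    · have : ∀ᶠ C in (U : Filter {C : Set (Op A B) // IsClonoid R S C}), ¬ x ∈ C.1 :=
        Ultrafilter.eventually_not.2 hx
      exact this.mono (fun C hC => by simp [hC, hx])
  have h5 : ∀ᶠ C in (U : Filter {C : Set (Op A B) // IsClonoid R S C}), C = ⟨L, hL⟩ :=
    h4.mono (fun C hC => Subtype.ext (hn C.1 C.2 hC))
  exact Filter.notMem_hyperfilter_of_finite (Set.finite_singleton (⟨L, hL⟩ :
    {C : Set (Op A B) // IsClonoid R S C})) h5

end finiteness

section reduction

variable {R S A B : Type*} [Ring R] [Ring S] [AddCommGroup A] [AddCommGroup B] [Module R A]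
  [Module S B]

omit [AddCommGroup B] [Module S B] in
theorem coprime_of_faithful [Finite R] [Finite A] [FaithfulSMul R A] [Finite B]
    (h : Nat.Coprime (Nat.card A) (Nat.card B)) : Nat.Coprime (Nat.card R) (Nat.card B) := by
  rw [Nat.coprime_iff_gcd_eq_one]
  by_contra hcon
  obtain ⟨p, hp, hpd⟩ := Nat.exists_prime_and_dvd hcon
  have h1 : p ∣ Nat.card R := hpd.trans (Nat.gcd_dvd_left _ _)
  have h2 : p ∣ Nat.card B := hpd.trans (Nat.gcd_dvd_right _ _)
  have := Fact.mk hp
  obtain ⟨r, hr⟩ := exists_prime_addOrderOf_dvd_card' p h1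
  have hr0 : r ≠ 0 := by
    rintro rfl
    rw [addOrderOf_zero] at hr
    exact hp.one_lt.ne hr
  have hpr : p • r = 0 := by rw [← hr]; exact addOrderOf_nsmul_eq_zero r
  obtain ⟨a, ha⟩ : ∃ a : A, r • a ≠ 0 := by
    by_contra hcon'
    push Not at hcon'
    exact hr0 (FaithfulSMul.eq_of_smul_eq_smul (α := A) (fun a => by rw [hcon' a, zero_smul]))
  have h3 : addOrderOf (r • a) = p := addOrderOf_eq_prime (by
    rw [← smul_assoc, hpr, zero_smul]) ha
  have h4 : p ∣ Nat.card A := h3 ▸ addOrderOf_dvd_natCard (r • a)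
  exact hp.one_lt.ne' (Nat.eq_one_of_dvd_coprimes h h4 h2)

/-- The image of `R` in the endomorphism ring of `A`. -/
abbrev Im (R A : Type*) [Ring R] [AddCommGroup A] [Module R A] :=
  (Module.toAddMonoidEnd R A).range

theorem isTermOp_im {n : ℕ} (g : (Fin n → A) → A) :
    IsTermOp (Im R A) g ↔ IsTermOp R g := by
  constructor
  · rintro ⟨r, hr⟩
    choose s hs using fun i => (r i).2
    refine ⟨s, fun x => ?_⟩
    rw [hr]
    refine Finset.sum_congr rfl (fun i _ => ?_)
    have : (r i) • x i = ((r i : AddMonoid.End A)) (x i) := rfl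
    rw [this, ← hs i]
    rfl
  · rintro ⟨r, hr⟩
    refine ⟨fun i => ⟨Module.toAddMonoidEnd R A (r i), r i, rfl⟩, fun x => ?_⟩
    rw [hr]
    rfl

theorem isClonoid_im (C : Set (Op A B)) : IsClonoid (Im R A) S C ↔ IsClonoid R S C := by
  constructor
  · intro h
    exact ⟨h.minor, fun n k f g hg => h.comp n k f g (fun i => (isTermOp_im _).2 (hg i)), h.post⟩
  · intro h
    exact ⟨h.minor, fun n k f g hg => h.comp n k f g (fun i => (isTermOp_im _).1 (hg i)), h.post⟩

end reduction

/-- For all rings `R`, `S`, every finite `R`-module `A` and every finite `S`-module `B` with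
`gcd(|A|,|B|) = 1`, there are only finitely many clonoids from `A` to `B`. -/
theorem result {R S A B : Type*} [Ring R] [Ring S] [AddCommGroup A] [AddCommGroup B]
    [Module R A] [Module S B] [Finite A] [Finite B]
    (h : Nat.Coprime (Nat.card A) (Nat.card B)) :
    {C : Set (Op A B) | IsClonoid R S C}.Finite := by
  classical
  have : Finite (AddMonoid.End A) := Finite.of_injective (fun f : AddMonoid.End A => (f : A → A))
    DFunLike.coe_injective
  have hf : Finite (Im R A) := inferInstance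
  have : FaithfulSMul (Im R A) A := ⟨fun {f g} hfg => Subtype.ext (AddMonoidHom.ext hfg)⟩
  have hcop : Nat.Coprime (Nat.card (Im R A)) (Nat.card B) := coprime_of_faithful h
  have := Fintype.ofFinite (Im R A)
  have := Fintype.ofFinite A
  have hfin := finite_of_chain (dcc (Im R A) S A B) (acc (Im R A) S A B hcop)
  have heq : {C : Set (Op A B) | IsClonoid R S C} = {C | IsClonoid (Im R A) S C} := by
    ext C
    exact (isClonoid_im C).symm
  rw [heq]
  exact Set.finite_coe_iff.1 hfin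

end Pool.Agent.Results.MP_d8c2c9_al.CoprimeFinite
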